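import Pool.Agent.helper62.EN.SpecP
import Pool.Agent.helper62.RS.All

/-! Row ENT of project EN: the entropy of the packet measure. -/

set_option autoImplicit false

open scoped MatrixGroups ContDiff Topology UpperHalfPlane ComplexConjugate
open UpperHalfPlane MeasureTheory Filter Set

namespace Pool.Agent.EN

open Pool.Agent.RS

theorem ENT_sum {X : Type} [MeasurableSpace X] (μ : Measure X) [IsFiniteMeasure μ] {n p : ℕ}
    (W : X → (Fin n → Fin p)) (hW : Measurable W) (f : (Fin n → Fin p) → ℝ) :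
    ∫ x, f (W x) ∂μ = ∑ w, μ.real (W ⁻¹' {w}) * f w := by
  have hf : Measurable f := measurable_of_finite f
  have h1 : ∫ x, f (W x) ∂μ = ∫ w, f w ∂(μ.map W) :=
    (integral_map hW.aemeasurable hf.aestronglyMeasurable).symm
  rw [h1, integral_fintype Integrable.of_finite]
  refine Finset.sum_congr rfl fun w _ => ?_
  rw [map_measureReal_apply hW (measurableSet_singleton w), smul_eq_mul]

theorem ENT_pos {X : Type} [MeasurableSpace X] (μ : Measure X) [IsFiniteMeasure μ] [NeZero μ]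
    (g : X → ℝ) (hg : Measurable g) (L : ℝ) (hL : ∀ x, |g x| ≤ L) : 0 < ∫ x, Real.exp (g x) ∂μ := by
  have h1 : Integrable (fun x => Real.exp (g x)) μ := by
    refine Integrable.of_bound (Real.measurable_exp.comp hg).aestronglyMeasurable
      (Real.exp L) (Eventually.of_forall fun x => ?_)
    rw [Real.norm_eq_abs, abs_of_pos (Real.exp_pos _)]
    exact Real.exp_le_exp.2 ((le_abs_self _).trans (hL x))
  exact integral_exp_pos h1

/-- the numerical part -/
theorem ENT_num {I m a b l h L δ H n : ℝ} (hδ : 0 < δ) (hδ1 : δ ≤ 1 / 24) (hL : 0 ≤ L) (hI : |I| ≤ L)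
    (hm1 : 1 - 2 * δ ^ 2 ≤ m) (hm2 : m ≤ 1) (h1 : n - H ≤ I)
    (h2 : 2 * (m * I) ≤ 2 * a + 2 * h - l + 14 * δ * L) (hb : h ≤ b) :
    n - a - b + l / 2 - 8 * δ * L ≤ H := by
  have h3 : I * (1 - m) ≤ L * (2 * δ ^ 2) := by
    have h4 : |I * (1 - m)| ≤ L * (2 * δ ^ 2) := by
      rw [abs_mul]
      refine mul_le_mul hI ?_ (abs_nonneg _) hL
      rw [abs_of_nonneg (by linarith)]
      linarith
    exact (le_abs_self _).trans h4
  have h5 : L * (2 * δ ^ 2) ≤ δ * L := by
    have h6 : 2 * δ ^ 2 ≤ δ := by nlinarith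
    nlinarith
  nlinarith

theorem ENT_proof (h1 : WTP_stmt) (h2 : KIS_stmt) (h3 : SMP_stmt) (h4 : XFL_stmt) (h5 : XTX_stmt) :
    ENT_stmt := by
  intro Γ F c r κ k₀ δ N s φ hGD hδ hδ1 hfam hN p n P C hP hn hC hcyl
  obtain ⟨-, -, hm1, hm2, -, hprob, -⟩ := h1 Γ F c r κ k₀ δ N s φ hGD hδ hδ1 hfam hN
  obtain ⟨hflow, -, hcX, -, hsX, -⟩ := h4 Γ
  obtain ⟨hcs, ht2, hsc⟩ := h5 Γ hGD.surf
  have hσ : IsProbabilityMeasure (sm (fl Γ) (rho Γ F c r κ φ)) :=
    (h3 (XG Γ) (fl Γ) (rho Γ F c r κ φ) hflow hprob).1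
  obtain ⟨⟨hdm, hdv, hfin, -⟩, -⟩ := A_GFD Γ F hGD.surf hGD.nice
  have hfm : IsFiniteMeasure (mG.restrict (dG F)) := ⟨by rw [Measure.restrict_apply_univ]; exact hfin⟩
  have hmX : IsFiniteMeasure (mX Γ F) := by
    unfold mX
    infer_instance
  have hmX0 : NeZero (mX Γ F) := ⟨by
    intro h0
    have h6 : mX Γ F univ = 0 := by rw [h0]; rfl
    unfold mX at h6
    rw [Measure.map_apply hcX.measurable MeasurableSet.univ, preimage_univ,
      Measure.restrict_apply_univ, hdv] at h6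
    exact (QU.A_DOB Γ F hGD.surf hGD.nice).2.2.1.ne' h6⟩
  have hT : Measurable (fl Γ 1) := by
    have h6 : Continuous ((fun q : ℝ × XG Γ => fl Γ q.1 q.2) ∘ fun x : XG Γ => ((1 : ℝ), x)) :=
      Continuous.comp hflow.cont (continuous_const.prodMk continuous_id)
    exact h6.measurable
  set σ := sm (fl Γ) (rho Γ F c r κ φ) with hσdef
  set W : XG Γ → (Fin n → Fin p) := fun x i => P ((fl Γ 1)^[i] x) with hWdef
  have hW : Measurable W := measurable_pi_iff.2 fun i => hP.comp (hT.iterate i)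
  have hset : ∀ w : Fin n → Fin p, {x | ∀ i : Fin n, P ((fl Γ 1)^[i] x) = w i} = W ⁻¹' {w} := by
    intro w
    ext x
    simp only [mem_ofPred_eq, mem_preimage, mem_singleton_iff, funext_iff, hWdef]
  simp only [hset] at hcyl
  have hp : 1 ≤ p := by
    have h6 := (P (mkX Γ 1)).pos
    omega
  have hp0 : (0 : ℝ) < p := by exact_mod_cast hp
  have hlp : 0 ≤ Real.log p := Real.log_nonneg (by exact_mod_cast hp)
  have hn1 : (1 : ℝ) ≤ n := by exact_mod_cast hn
  set q : (Fin n → Fin p) → ℝ := fun w => σ.real (W ⁻¹' {w}) with hqdef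
  have hq0 : ∀ w, 0 ≤ q w := fun w => measureReal_nonneg
  have hq1 : ∀ w, q w ≤ 1 := fun w => measureReal_le_one
  have hqs : ∑ w, q w = 1 := by
    have h6 := ENT_sum σ W hW (fun _ => 1)
    simp only [mul_one] at h6
    rw [← h6]
    simp
  have hpn : 0 < ((p : ℝ) ^ n)⁻¹ := by positivity
  have hpn1 : ((p : ℝ) ^ n)⁻¹ ≤ 1 := inv_le_one_of_one_le₀ (one_le_pow₀ (by exact_mod_cast hp))
  set f : (Fin n → Fin p) → ℝ := fun w => n + Real.log (q w + ((p : ℝ) ^ n)⁻¹) with hfdef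
  have hpos : ∀ w, 0 < q w + ((p : ℝ) ^ n)⁻¹ := fun w => by linarith [hq0 w]
  have hfb : ∀ w, |f w| ≤ n * (1 + Real.log p) + 1 := by
    intro w
    have h6 : Real.log (q w + ((p : ℝ) ^ n)⁻¹) ≤ 1 := by
      have h7 := Real.log_le_sub_one_of_pos (hpos w)
      linarith [hq1 w]
    have h7 : -(n * Real.log p) ≤ Real.log (q w + ((p : ℝ) ^ n)⁻¹) := by
      have h8 : Real.log (((p : ℝ) ^ n)⁻¹) = -(n * Real.log p) := by
        rw [Real.log_inv, Real.log_pow]
      rw [← h8]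
      exact Real.log_le_log hpn (by linarith [hq0 w])
    have h9 : 0 ≤ n * Real.log p := by positivity
    rw [hfdef, abs_le]
    constructor
    · show -(n * (1 + Real.log p) + 1) ≤ n + Real.log (q w + ((p : ℝ) ^ n)⁻¹)
      nlinarith
    · show n + Real.log (q w + ((p : ℝ) ^ n)⁻¹) ≤ n * (1 + Real.log p) + 1
      nlinarith
  have hL1 : 1 ≤ n * (1 + Real.log p) + 1 := by nlinarith
  have hΨ : Measurable (fun x => f (W x)) := (measurable_of_finite f).comp hW
  have key := h2 Γ F c r κ k₀ δ N s φ hGD hδ hδ1 hfam hN (fun x => f (W x))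
    (n * (1 + Real.log p) + 1) hΨ hL1 (fun x => hfb (W x))
  -- the exponential moment
  have hexp : ∫ x, Real.exp (f (W x)) ∂(mX Γ F) ≤ 2 * C := by
    rw [ENT_sum (mX Γ F) W hW (fun w => Real.exp (f w))]
    have h6 : ∀ w, (mX Γ F).real (W ⁻¹' {w}) * Real.exp (f w) ≤ C * (q w + ((p : ℝ) ^ n)⁻¹) := by
      intro w
      have h7 : Real.exp (f w) = Real.exp n * (q w + ((p : ℝ) ^ n)⁻¹) := by
        show Real.exp (n + Real.log (q w + ((p : ℝ) ^ n)⁻¹)) = _
        rw [Real.exp_add, Real.exp_log (hpos w)]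
      rw [h7]
      calc (mX Γ F).real (W ⁻¹' {w}) * (Real.exp n * (q w + ((p : ℝ) ^ n)⁻¹))
          ≤ (C * Real.exp (-n)) * (Real.exp n * (q w + ((p : ℝ) ^ n)⁻¹)) :=
            mul_le_mul_of_nonneg_right (hcyl w)
              (mul_nonneg (Real.exp_pos _).le (hpos w).le)
        _ = C * (Real.exp (-n) * Real.exp n) * (q w + ((p : ℝ) ^ n)⁻¹) := by ring
        _ = C * (q w + ((p : ℝ) ^ n)⁻¹) := by rw [← Real.exp_add]; simp
    have h8 : ∑ w, (mX Γ F).real (W ⁻¹' {w}) * Real.exp (f w) ≤ ∑ w, C * (q w + ((p : ℝ) ^ n)⁻¹) :=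
      Finset.sum_le_sum fun w _ => h6 w
    have h9 : ∑ w, C * (q w + ((p : ℝ) ^ n)⁻¹) = 2 * C := ?_
    · exact h8.trans_eq h9
    rw [← Finset.mul_sum, Finset.sum_add_distrib, hqs, Finset.sum_const, Finset.card_univ,
      Fintype.card_fun, Fintype.card_fin, Fintype.card_fin, nsmul_eq_mul]
    push_cast
    rw [mul_inv_cancel₀ (by positivity)]
    ring
  have hexp0 : 0 < ∫ x, Real.exp (f (W x)) ∂(mX Γ F) :=
    ENT_pos (mX Γ F) (fun x => f (W x)) hΨ (n * (1 + Real.log p) + 1) (fun x => hfb (W x))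
  have hlog : Real.log (∫ x, Real.exp (f (W x)) ∂(mX Γ F)) ≤ Real.log (2 * C) :=
    Real.log_le_log hexp0 hexp
  -- the integral of the function
  have hI : n - Hn σ (fl Γ 1) P n ≤ ∫ x, f (W x) ∂σ := by
    rw [ENT_sum σ W hW f]
    unfold Hn
    simp only [hset]
    have h6 : ∀ w, q w * n - Real.negMulLog (q w) ≤ q w * f w := by
      intro w
      unfold Real.negMulLog
      show q w * n - -q w * Real.log (q w) ≤ q w * (n + Real.log (q w + ((p : ℝ) ^ n)⁻¹))
      rcases (hq0 w).eq_or_lt with h | h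
      · rw [← h]
        simp
      · have h7 : Real.log (q w) ≤ Real.log (q w + ((p : ℝ) ^ n)⁻¹) := Real.log_le_log h (by linarith)
        nlinarith
    have h7 := Finset.sum_le_sum (s := Finset.univ) fun w _ => h6 w
    rw [Finset.sum_sub_distrib, ← Finset.sum_mul, hqs, one_mul] at h7
    exact h7
  have hIb : |∫ x, f (W x) ∂σ| ≤ n * (1 + Real.log p) + 1 := by
    have h6 := norm_integral_le_of_norm_le_const (μ := σ) (f := fun x => f (W x))
      (C := n * (1 + Real.log p) + 1) (Eventually.of_forall fun x => by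
        rw [Real.norm_eq_abs]; exact hfb (W x))
    simpa using h6
  exact ENT_num hδ hδ1 (by linarith) hIb hm1 hm2 hI key hlog

end Pool.Agent.EN
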