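import Pool.Agent.helper62.EN.SpecP
import Pool.Agent.helper62.RS.All

/-! Row KIN of project EN: the inequality of the three lines argument for the packet density. -/

set_option autoImplicit false

open scoped MatrixGroups ContDiff Topology UpperHalfPlane ComplexConjugate
open UpperHalfPlane MeasureTheory Filter Set

namespace Pool.Agent.EN

open Pool.Agent.RS

theorem KIN_int {Φ : SL(2, ℝ) → ℝ} {L : ℝ} (hΦ : Measurable Φ) (hL : ∀ g, |Φ g| ≤ L)
    {a : SL(2, ℝ) → ℂ} (ha : BM a) (μ : Measure SL(2, ℝ)) [IsFiniteMeasure μ] :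
    Integrable (fun g => Φ g * ‖a g‖ ^ 2) μ := by
  obtain ⟨hm, m, hb⟩ := ha
  refine Integrable.of_bound (hΦ.mul (hm.norm.pow_const 2)).aestronglyMeasurable (L * m ^ 2)
    (Eventually.of_forall fun g => ?_)
  rw [norm_mul, Real.norm_eq_abs, norm_pow, norm_norm]
  exact mul_le_mul (hL g) (pow_le_pow_left₀ (norm_nonneg _) (hb g) 2) (by positivity)
    ((abs_nonneg _).trans (hL g))

theorem KIN_proof : KIN_stmt := by
  intro Γ F c r κ k₀ δ N s φ hGD hδ hδ1 hfam hN Φ L hΦ hL x hx0 hx1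
  obtain ⟨hs, heig, hon⟩ := id hfam
  obtain ⟨⟨hdm, hdv, hfin, -⟩, -⟩ := A_GFD Γ F hGD.surf hGD.nice
  have hfm : IsFiniteMeasure (mG.restrict (dG F)) := ⟨by rw [Measure.restrict_apply_univ]; exact hfin⟩
  have hκ := hGD.pκ
  have ca := QU.A_CA1 ℂ
  have heL : ∀ j, EigL Γ (1 / 4 + s j ^ 2) (φ j) := fun j =>
    ⟨ca.2.1 _ 2 ∞ (WithTop.coe_le_coe.2 le_top) (heig j).1, (heig j).2.1, (heig j).2.2⟩
  have hTD := A_ETD Γ F c r κ k₀ N s φ hGD.surf hGD.nice hGD.tb hκ hGD.p0.le hGD.up hGD.ker heL hon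
  have hnn : ∀ j, nn F (φ j) = 1 := by
    intro j
    have h1 := hon j j
    rw [if_pos rfl] at h1
    have h2 : (∫ z in F, φ j z * conj (φ j z)) = ((nn F (φ j) : ℝ) : ℂ) := by
      unfold nn
      rw [← integral_complex_ofReal]
      congr 1
      funext z
      rw [Complex.mul_conj, Complex.normSq_eq_norm_sq]
    rw [h2] at h1
    exact_mod_cast h1
  have hsr : ∀ j, |s j - r| ≤ 1 := by
    intro j
    rw [abs_of_nonneg (by linarith [(hs j).1])]
    linarith [(hs j).2]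
  have hA1 : ∀ j, 1 - δ ^ 2 ≤ qn F c r (φ j) / κ := by
    intro j
    have h1 := hGD.low (s j) (φ j) (hsr j) (heL j)
    rw [hnn j, mul_one] at h1
    rw [le_div_iff₀ hκ]
    exact h1
  have hμ : 0 < ((mG.restrict (dG F)) Set.univ).toReal := by
    rw [Measure.restrict_apply_univ]
    apply ENNReal.toReal_pos _ hfin.ne
    rw [hdv]
    exact (QU.A_DOB Γ F hGD.surf hGD.nice).2.2.1.ne'
  have key := A_TH4 SL(2, ℝ) (mG.restrict (dG F)) N _ _ _ _ κ k₀ Φ L hTD ⟨hΦ, L, hL⟩ hL hN hGD.p0 hμ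
    x hx0 hx1
  refine le_trans ?_ key
  have hN' : (0 : ℝ) < N := by exact_mod_cast (Nat.lt_of_lt_of_le Nat.zero_lt_one hN)
  have hδ2 : δ ^ 2 ≤ 1 := by nlinarith
  have p1 : (1 - δ ^ 2) ^ 2 ≤ (∑ j, (qn F c r (φ j) / κ) ^ 2) / N := by
    rw [le_div_iff₀ hN']
    have h1 : ∑ _j : Fin N, (1 - δ ^ 2) ^ 2 ≤ ∑ j, (qn F c r (φ j) / κ) ^ 2 :=
      Finset.sum_le_sum (fun j _ => pow_le_pow_left₀ (by linarith) (hA1 j) 2)
    rw [Finset.sum_const, Finset.card_univ, Fintype.card_fin, nsmul_eq_mul] at h1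
    linarith
  have p2 : 2 * iR F (fun g => Φ g * wt F c r κ φ g) =
      (∑ j, qn F c r (φ j) / κ * ((∫ g, Φ g *
        ‖conj (Wf (pk r c) (fun z => conj (φ j z)) g)‖ ^ 2 ∂(mG.restrict (dG F))) +
        ∫ g, Φ g * ‖Wf (pk r c) (φ j) g‖ ^ 2 ∂(mG.restrict (dG F)))) / (N * κ) := by
    have e1 : ∀ g, Φ g * wt F c r κ φ g = (∑ j, qn F c r (φ j) / κ *
        (Φ g * ‖conj (Wf (pk r c) (fun z => conj (φ j z)) g)‖ ^ 2 +
          Φ g * ‖Wf (pk r c) (φ j) g‖ ^ 2)) / (2 * N * κ) := by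
      intro g
      unfold wt
      rw [mul_div_assoc', Finset.mul_sum]
      congr 1
      refine Finset.sum_congr rfl fun j _ => ?_
      rw [RCLike.norm_conj]
      ring
    have hia : ∀ j, Integrable (fun g => Φ g *
        ‖conj (Wf (pk r c) (fun z => conj (φ j z)) g)‖ ^ 2) (mG.restrict (dG F)) := fun j =>
      KIN_int hΦ hL (hTD.bma j) _
    have hib : ∀ j, Integrable (fun g => Φ g * ‖Wf (pk r c) (φ j) g‖ ^ 2) (mG.restrict (dG F)) :=
      fun j => KIN_int hΦ hL (hTD.bmb j) _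
    have e2 : iR F (fun g => Φ g * wt F c r κ φ g) =
        (∑ j, qn F c r (φ j) / κ * ((∫ g, Φ g *
        ‖conj (Wf (pk r c) (fun z => conj (φ j z)) g)‖ ^ 2 ∂(mG.restrict (dG F))) +
        ∫ g, Φ g * ‖Wf (pk r c) (φ j) g‖ ^ 2 ∂(mG.restrict (dG F)))) / (2 * N * κ) := by
      unfold iR
      rw [integral_congr_ae (Eventually.of_forall e1), integral_div, integral_finsetSum]
      · congr 1
        refine Finset.sum_congr rfl fun j _ => ?_
        rw [integral_const_mul, integral_add (hia j) (hib j)]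
      · intro j _
        exact ((hia j).add (hib j)).const_mul _
    rw [e2]
    field_simp
  have p3 : 2 * x * iR F (fun g => Φ g * wt F c r κ φ g) = x * ((∑ j, qn F c r (φ j) / κ * ((∫ g, Φ g *
        ‖conj (Wf (pk r c) (fun z => conj (φ j z)) g)‖ ^ 2 ∂(mG.restrict (dG F))) +
        ∫ g, Φ g * ‖Wf (pk r c) (φ j) g‖ ^ 2 ∂(mG.restrict (dG F)))) / (N * κ)) := by
    rw [← p2]
    ring
  rw [p3]
  linarith

end Pool.Agent.EN
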