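import Pool.Agent.helper62.EN.SpecX
import Pool.Agent.helper62.RS.GLC

/-! Row XTX of project EN: the space `X = Γ \ SL(2, ℝ)` is compact, Hausdorff and second countable. -/

set_option autoImplicit false

open scoped MatrixGroups ContDiff Topology UpperHalfPlane ComplexConjugate
open UpperHalfPlane MeasureTheory Filter Set

namespace Pool.Agent.EN

theorem XTX_proof (h1 : XFL_stmt) : XTX_stmt := by
  intro Γ hΓ
  obtain ⟨hLC, hSC, hcpt, -⟩ := RS.GLC
  obtain ⟨-, -, hcX, hoX, hsX, -⟩ := h1 Γ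
  have := hLC
  have := hSC
  have hcI : Continuous (fun g : SL(2, ℝ) => g • I) := by fun_prop
  have hPD : ProperlyDiscontinuousSMul Γ SL(2, ℝ) := ⟨by
    intro A B hA hB
    refine (hΓ.discrete ((fun g : SL(2, ℝ) => g • I) '' A ∪ (fun g : SL(2, ℝ) => g • I) '' B)
      ((hA.image hcI).union (hB.image hcI))).subset ?_
    rintro γ ⟨b, ⟨a, ha, rfl⟩, hb⟩
    refine ⟨a • I, Or.inl ⟨a, ha, rfl⟩, Or.inr ⟨γ • a, hb, ?_⟩⟩
    exact mul_smul (γ : SL(2, ℝ)) a I⟩
  refine ⟨⟨?_⟩, ?_, ?_⟩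
  · obtain ⟨K, hK, hcov⟩ := hΓ.cocompact
    have h2 : (univ : Set (XG Γ)) = mkX Γ '' {g : SL(2, ℝ) | g • I ∈ K} := by
      symm
      rw [eq_univ_iff_forall]
      intro x
      obtain ⟨g, rfl⟩ := hsX x
      obtain ⟨γ, hγ⟩ := hcov (g • I)
      refine ⟨(γ : SL(2, ℝ)) * g, ?_, ?_⟩
      · show ((γ : SL(2, ℝ)) * g) • I ∈ K
        rw [mul_smul]
        exact hγ
      · exact Quotient.sound ⟨γ, rfl⟩
    rw [h2]
    exact (hcpt K hK).image hcX
  · exact inferInstanceAs (T2Space (Quotient (MulAction.orbitRel Γ SL(2, ℝ))))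
  · exact ContinuousConstSMul.secondCountableTopology (Γ := Γ) (T := SL(2, ℝ))

end Pool.Agent.EN
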